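import Pool.Agent.Lib.BDesign.Assemble
import Pool.Agent.Lib.MP_a7e07e_co.Sp.Sparse

set_option autoImplicit false

/-!
# MP_a7e07e_co: non-binary block designs never win, with finitely many possible exceptions

For a block design with `v × b` incidence matrix `N` (row sums `r`, column sums `k`, `k ≤ v`) the
matrix `C + J / v`, `C = r I - N Nᵀ / k`, is invertible exactly if the design is connected (all
canonical efficiency factors `e_i` are nonzero), and then `trace (C + J / v)⁻¹ = 1 + ∑ 1 / (r e_i)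
= 1 + (v - 1) / (r EF)`, so a smaller trace is a larger efficiency factor.

`Exceptional v b k r`: there is a connected non-binary design with these parameters such that no
connected binary design with the same parameters has a strictly larger efficiency factor. The theorem:
only finitely many parameters `(v, b, k, r)` are exceptional, and all of them have
`max r k < 10 ^ 24`.
-/

namespace Pool.Agent.Results.MP_a7e07e_co.AlmostAll

open Matrix

/-- The matrix `C + J / v`, where `C = r I - N Nᵀ / k`. -/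
noncomputable def CJ {v b : ℕ} (k r : ℕ) (N : Matrix (Fin v) (Fin b) ℕ) :
    Matrix (Fin v) (Fin v) ℝ :=
  (r : ℝ) • (1 : Matrix (Fin v) (Fin v) ℝ)
    - (1 / (k : ℝ)) • (N.map (Nat.cast : ℕ → ℝ) * (N.map (Nat.cast : ℕ → ℝ)).transpose)
    + (1 / (v : ℝ)) • Matrix.of (fun _ _ => (1 : ℝ))

/-- `N` is the incidence matrix of a connected block design with `v` varieties (each on `r` plots)
and `b` blocks (each with `k` plots). -/
def IsConnectedDesign {v b : ℕ} (k r : ℕ) (N : Matrix (Fin v) (Fin b) ℕ) : Prop :=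
  (∀ j, ∑ i, N i j = k) ∧ (∀ i, ∑ j, N i j = r) ∧ (CJ k r N).det ≠ 0

/-- `k ≤ v` and some connected non-binary design with parameters `v, b, k, r` is such that no
connected binary design with the same parameters is strictly better (has a strictly smaller trace of
`(C + J / v)⁻¹`, that is, a strictly larger efficiency factor). -/
def Exceptional (v b k r : ℕ) : Prop :=
  k ≤ v ∧ ∃ N : Matrix (Fin v) (Fin b) ℕ, IsConnectedDesign k r N ∧ (∃ i j, 2 ≤ N i j) ∧
    ∀ M : Matrix (Fin v) (Fin b) ℕ, IsConnectedDesign k r M → (∀ i j, M i j ≤ 1) →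
      ¬ Matrix.trace (CJ k r M)⁻¹ < Matrix.trace (CJ k r N)⁻¹

theorem exceptional_A {v b k r : ℕ} (h : Exceptional v b k r) : max r k < 10 ^ 24 := by
  by_contra hcon
  push Not at hcon
  obtain ⟨hkv, N, ⟨hcol, hrow, hdet⟩, hnb, hN⟩ := h
  obtain ⟨M, h1, h2, h3, h4, h5⟩ :=
    Pool.Agent.BDesign.theoremA v b r k N hkv hcon hcol hrow hnb hdet
  exact hN M ⟨h1, h2, h4⟩ h3 h5

theorem exceptional_B : ∃ C : ℕ, ∀ v b k r : ℕ, Exceptional v b k r →
    v * r < C ∨ v < C * k * (Nat.log 2 (v * r)) ^ 30 := by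
  obtain ⟨C, hC⟩ := Pool.Agent.Lib.MP_a7e07e_co.Sp.sparse
  refine ⟨C, fun v b k r h => ?_⟩
  by_contra hcon
  push Not at hcon
  obtain ⟨hkv, N, ⟨hcol, hrow, hdet⟩, hnb, hN⟩ := h
  have hv : 2 ≤ v := by
    obtain ⟨i, j, hij⟩ := hnb
    have := Finset.single_le_sum (f := fun i => N i j) (fun i _ => Nat.zero_le _)
      (Finset.mem_univ i)
    rw [hcol j] at this
    omega
  obtain ⟨M, h1, h2, h3, h4, h5⟩ := hC v b k r N hv hcon.1 hcon.2 hcol hrow hnb hdet
  exact hN M ⟨h1, h2, h4⟩ h3 h5

theorem log_bound (K : ℕ) : ∃ V : ℕ, ∀ v : ℕ, V ≤ v → K * (Nat.log 2 (v * K)) ^ 30 ≤ v := by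
  rcases Nat.eq_zero_or_pos K with hK | hK
  · exact ⟨0, fun v _ => by simp [hK]⟩
  have hK' : (0 : ℝ) < K := by exact_mod_cast hK
  have h1 := (Asymptotics.isLittleO_iff_tendsto' (f := fun x : ℝ => Real.log x ^ 30) (g := id)
    (by filter_upwards [Filter.eventually_gt_atTop 0] with x hx h; exact absurd h hx.ne')).1
    (Real.isLittleO_pow_log_id_atTop (n := 30))
  have hε : (0 : ℝ) < (Real.log 2) ^ 30 / (K * K) := by positivity
  have h2 := h1.eventually (gt_mem_nhds hε)
  obtain ⟨X, hX⟩ := Filter.eventually_atTop.1 h2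
  refine ⟨Nat.ceil (max X 1) + 1, fun v hv => ?_⟩
  have hvX : max X 1 ≤ (v : ℝ) := by
    have := Nat.le_ceil (max X 1)
    have h3 : ((Nat.ceil (max X 1) + 1 : ℕ) : ℝ) ≤ v := by exact_mod_cast hv
    push_cast at h3
    linarith
  have hv0 : (0 : ℝ) < v := by
    have := le_max_right X 1
    linarith
  have hvK : X ≤ (v : ℝ) * K := by
    have h3 := le_max_left X 1
    have h4 : (1 : ℝ) ≤ K := by exact_mod_cast hK
    nlinarith
  have h5 := hX _ hvK
  simp only [id] at h5
  have hvK0 : (0 : ℝ) < (v : ℝ) * K := by positivity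
  rw [div_lt_div_iff₀ hvK0 (by positivity)] at h5
  have h6 : (Nat.log 2 (v * K) : ℝ) ≤ Real.log (v * K) / Real.log 2 := by
    have := Real.natLog_le_logb (v * K) 2
    rw [Real.logb] at this
    exact_mod_cast this
  have hl2 : 0 < Real.log 2 := Real.log_pos (by norm_num)
  have h7 : (Nat.log 2 (v * K) : ℝ) ^ 30 ≤ (Real.log (v * K)) ^ 30 / (Real.log 2) ^ 30 := by
    rw [← div_pow]
    exact pow_le_pow_left₀ (by positivity) h6 30
  have h8 : (K : ℝ) * (Nat.log 2 (v * K) : ℝ) ^ 30 ≤ v := by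
    have h9 : (K : ℝ) * (Nat.log 2 (v * K) : ℝ) ^ 30 ≤
        K * ((Real.log (v * K)) ^ 30 / (Real.log 2) ^ 30) :=
      mul_le_mul_of_nonneg_left h7 hK'.le
    refine h9.trans ?_
    rw [mul_div_assoc', div_le_iff₀ (by positivity)]
    nlinarith
  exact_mod_cast h8

/-- Only finitely many parameters `(v, b, k, r)` are exceptional, and all of them satisfy
`max r k < 10 ^ 24`. -/
theorem result : {p : ℕ × ℕ × ℕ × ℕ | Exceptional p.1 p.2.1 p.2.2.1 p.2.2.2}.Finite ∧
    ∀ v b k r : ℕ, Exceptional v b k r → max r k < 10 ^ 24 := by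
  obtain ⟨C, hC⟩ := exceptional_B
  refine ⟨?_, fun v b k r h => exceptional_A h⟩
  obtain ⟨V, hV⟩ := log_bound (C * 10 ^ 24)
  set D : ℕ := max (max V C) 1 + 1 with hD
  refine ((Set.finite_Iic D).prod ((Set.finite_Iic (D * 10 ^ 24)).prod
    ((Set.finite_Iic (10 ^ 24)).prod (Set.finite_Iic (10 ^ 24))))).subset ?_
  rintro ⟨v, b, k, r⟩ h
  have h : Exceptional v b k r := h
  have hA := exceptional_A h
  have hr : r < 10 ^ 24 := lt_of_le_of_lt (le_max_left _ _) hA
  have hk : k < 10 ^ 24 := lt_of_le_of_lt (le_max_right _ _) hA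
  have hB := hC v b k r h
  obtain ⟨hkv, N, ⟨hcol, hrow, hdet⟩, ⟨i, j, hij⟩, hN⟩ := h
  have hk1 : 1 ≤ k := by
    have := Finset.single_le_sum (f := fun i => N i j) (fun i _ => Nat.zero_le _)
      (Finset.mem_univ i)
    rw [hcol j] at this
    omega
  have hr1 : 1 ≤ r := by
    have := Finset.single_le_sum (f := fun j => N i j) (fun i _ => Nat.zero_le _)
      (Finset.mem_univ j)
    rw [hrow i] at this
    omega
  have hbk : b * k = v * r := by
    have h1 : ∑ j, ∑ i, N i j = b * k := by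
      simp [hcol]
    have h2 : ∑ i, ∑ j, N i j = v * r := by
      simp [hrow]
    rw [← h1, ← h2, Finset.sum_comm]
  have hvD : v ≤ D := by
    rcases hB with hB | hB
    · have : v ≤ v * r := Nat.le_mul_of_pos_right v hr1
      have h3 : C ≤ max (max V C) 1 := (le_max_right V C).trans (le_max_left _ _)
      omega
    · by_contra hcon
      push Not at hcon
      have hVv : V ≤ v := by
        have h3 : V ≤ max (max V C) 1 := (le_max_left V C).trans (le_max_left _ _)
        omega
      have hC1 : 1 ≤ C := by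
        rcases Nat.eq_zero_or_pos C with h0 | h0
        · rw [h0] at hB
          simp at hB
        · exact h0
      have h4 := hV v hVv
      have h5 : C * k * (Nat.log 2 (v * r)) ^ 30 ≤
          C * 10 ^ 24 * (Nat.log 2 (v * (C * 10 ^ 24))) ^ 30 := by
        refine Nat.mul_le_mul (Nat.mul_le_mul le_rfl hk.le) (Nat.pow_le_pow_left ?_ 30)
        refine Nat.log_mono_right (Nat.mul_le_mul le_rfl ?_)
        calc r ≤ 10 ^ 24 := hr.le
          _ = 1 * 10 ^ 24 := by ring
          _ ≤ C * 10 ^ 24 := Nat.mul_le_mul hC1 le_rfl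
      omega
  have hbD : b ≤ D * 10 ^ 24 := by
    calc b ≤ b * k := Nat.le_mul_of_pos_right b hk1
      _ = v * r := hbk
      _ ≤ D * 10 ^ 24 := Nat.mul_le_mul hvD hr.le
  exact ⟨hvD, hbD, hk.le, hr.le⟩

end Pool.Agent.Results.MP_a7e07e_co.AlmostAll
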