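import Pool.Agent.Lib.MP_a7e07e_co.K2.Main

set_option autoImplicit false

/-!
# MP_a7e07e_co: non-binary block designs never win if `k = 2` or `r = 2`

For a block design with `v × b` incidence matrix `N` (row sums `r`, column sums `k`, `k ≤ v`) the
matrix `C + J / v`, `C = r I - N Nᵀ / k`, is invertible exactly if the design is connected (all
canonical efficiency factors `e_i` are nonzero), and then `trace (C + J / v)⁻¹ = 1 + ∑ 1 / (r e_i)
= 1 + (v - 1) / (r EF)`, so a smaller trace is a larger efficiency factor.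

The theorem: let `k = 2` or `r = 2`. Then for all `v` and `b` every connected non-binary design is
strictly worse than some connected binary design with the same parameters. There is no condition on
the size of the parameters.
-/

namespace Pool.Agent.Results.MP_a7e07e_co.BlockSizeTwo

open Matrix

/-- The matrix `C + J / v`, where `C = r I - N Nᵀ / k`. -/
noncomputable def CJ {v b : ℕ} (k r : ℕ) (N : Matrix (Fin v) (Fin b) ℕ) :
    Matrix (Fin v) (Fin v) ℝ :=
  (r : ℝ) • (1 : Matrix (Fin v) (Fin v) ℝ)
    - (1 / (k : ℝ)) • (N.map (Nat.cast : ℕ → ℝ) * (N.map (Nat.cast : ℕ → ℝ)).transpose)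
    + (1 / (v : ℝ)) • Matrix.of (fun _ _ => (1 : ℝ))

/-- `N` is the incidence matrix of a connected block design with `v` varieties (each on `r` plots)
and `b` blocks (each with `k` plots). -/
def IsConnectedDesign {v b : ℕ} (k r : ℕ) (N : Matrix (Fin v) (Fin b) ℕ) : Prop :=
  (∀ j, ∑ i, N i j = k) ∧ (∀ i, ∑ j, N i j = r) ∧ (CJ k r N).det ≠ 0

/-- Let `k ≤ v` and `k = 2` or `r = 2`. For every connected non-binary design `N` with parameters
`v, b, k, r` there is a connected binary design `M` with the same parameters which is strictly better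
(has a strictly smaller trace of `(C + J / v)⁻¹`, that is, a strictly larger efficiency factor). -/
theorem result (v b k r : ℕ) (hkv : k ≤ v) (h2 : k = 2 ∨ r = 2) (N : Matrix (Fin v) (Fin b) ℕ)
    (hN : IsConnectedDesign k r N) (hnb : ∃ i j, 2 ≤ N i j) :
    ∃ M : Matrix (Fin v) (Fin b) ℕ, IsConnectedDesign k r M ∧ (∀ i j, M i j ≤ 1) ∧
      Matrix.trace (CJ k r M)⁻¹ < Matrix.trace (CJ k r N)⁻¹ := by
  obtain ⟨hcol, hrow, hdet⟩ := hN
  obtain ⟨M, h1, h2', h3, h4, h5⟩ :=
    Pool.Agent.K2.main_two v b r k N hkv h2 hcol hrow hnb hdet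
  exact ⟨M, ⟨h1, h2', h4⟩, h3, h5⟩

end Pool.Agent.Results.MP_a7e07e_co.BlockSizeTwo
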